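import Pool.Agent.TH97.VR.Top

/-! Quasiconvex subgroups of virtually compact special hyperbolic groups are virtual retracts. -/

set_option autoImplicit false

namespace Pool.Agent.Results.MP_e55993_al.QuasiconvexRetract

open Pool.Agent.H97R3.VR Pool.Agent.TH97.VR

/-- Let `G` be a word-hyperbolic group which is virtually compact special. Then every quasiconvex
subgroup of `G` is a virtual retract of `G`. -/
theorem result {G : Type} [Group G] (hyp : IsHyperbolic G) (hsp : VirtuallyCompactSpecial G)
    (H : Subgroup G) (hH : IsQuasiconvex H) : IsVirtualRetract H :=
  main_top hyp hsp H hH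

end Pool.Agent.Results.MP_e55993_al.QuasiconvexRetract
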